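import Pool.Agent.Q98.SPN.Stm

/-!
# Project GSP, package WED: `ℂ[G]` is a product of matrix algebras (Maschke, Wedderburn-Artin)
-/

set_option autoImplicit false

namespace Pool.Agent.U941.GSP.WED

open Pool.Agent.Q98.SPN

theorem t_WED : S_WED := by
  intro G _ _ _
  have : NeZero (Nat.card G : ℂ) := ⟨by simp⟩
  have h1 : IsSemisimpleRing (MonoidAlgebra ℂ G) := inferInstance
  have h2 : FiniteDimensional ℂ (MonoidAlgebra ℂ G) := inferInstance
  obtain ⟨n, d, hd, ⟨e⟩⟩ :=
    IsSemisimpleRing.exists_algEquiv_pi_matrix_of_isAlgClosed ℂ (MonoidAlgebra ℂ G)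
  refine ⟨n, d, e, fun i => Nat.pos_of_ne_zero (hd i).out, ?_⟩
  have h3 := e.toLinearEquiv.finrank_eq
  have h4 : Module.finrank ℂ (MonoidAlgebra ℂ G) = Fintype.card G := by
    rw [(MonoidAlgebra.coeffLinearEquiv (R := ℂ) (S := ℂ) (M := G)).finrank_eq]
    simp
  rw [← h4, h3, Module.finrank_pi_fintype]
  refine Finset.sum_congr rfl fun i _ => ?_
  simp [Module.finrank_matrix, sq]

end Pool.Agent.U941.GSP.WED
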